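import Pool.Agent.AEB.ChoiceX

/-!
# Capacities in a tournament

`lin R X w`: the vertices of `X` with at least `w` out-neighbours in `X`. `poor R X w t`: the vertices
of `X` with fewer than `t` in-neighbours in `lin R X w`. There are at most `2 * t` poor vertices, each of
them dominates all but `t` vertices of `lin R X w`, and every other vertex has many in-neighbours of
large out-degree: if a part `P₁` containing the poor vertices is cut off, then every vertex outside has
`t₀` in-neighbours in `P₁` or `t - t₀` in-neighbours of large out-degree outside `P₁`.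
-/

set_option autoImplicit false

namespace Pool.Agent.H12AE

open Finset _root_.AE15
open scoped Classical

variable {V : Type*} {R : V → V → Prop}

/-- the vertices of `X` with at least `w` out-neighbours in `X` -/
noncomputable def lin (R : V → V → Prop) (X : Finset V) (w : ℕ) : Finset V :=
  X.filter (fun u => w ≤ (nO R X u).card)

/-- the vertices of `X` with fewer than `t` in-neighbours in `lin R X w` -/
noncomputable def poor (R : V → V → Prop) (X : Finset V) (w t : ℕ) : Finset V :=
  X.filter (fun u => (nI R (lin R X w) u).card < t)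

theorem lin_sub {X : Finset V} {w : ℕ} : lin R X w ⊆ X := filter_subset _ _

theorem poor_sub {X : Finset V} {w t : ℕ} : poor R X w t ⊆ X := filter_subset _ _

theorem mem_lin {X : Finset V} {w : ℕ} {u : V} : u ∈ lin R X w ↔ u ∈ X ∧ w ≤ (nO R X u).card := by
  simp [lin]

theorem mem_poor {X : Finset V} {w t : ℕ} {u : V} :
    u ∈ poor R X w t ↔ u ∈ X ∧ (nI R (lin R X w) u).card < t := by
  simp [poor]

theorem card_sdiff_lin (hT : AE32.Tour R) (X : Finset V) (w : ℕ) : (X \ lin R X w).card ≤ 2 * w := by
  rcases w with _ | w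
  · have : X \ lin R X 0 = ∅ := by
      rw [sdiff_eq_empty_iff_subset]
      intro u hu
      exact mem_lin.2 ⟨hu, Nat.zero_le _⟩
    simp [this]
  · have h := card_low hT X w
    have h1 : X \ lin R X (w + 1) ⊆ X.filter (fun v => (nO R X v).card ≤ w) := by
      intro u hu
      rw [mem_sdiff, mem_lin] at hu
      rw [mem_filter]
      refine ⟨hu.1, ?_⟩
      by_contra hc
      exact hu.2 ⟨hu.1, by omega⟩
    have := card_le_card h1
    omega

theorem nI_union_card {A B : Finset V} (v : V) :
    (nI R (A ∪ B) v).card ≤ (nI R A v).card + (nI R B v).card := by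
  have : nI R (A ∪ B) v = nI R A v ∪ nI R B v := by
    ext u
    simp only [mem_nI, mem_union]
    tauto
  rw [this]
  exact card_union_le _ _

theorem nO_union_card {A B : Finset V} (v : V) :
    (nO R (A ∪ B) v).card ≤ (nO R A v).card + (nO R B v).card := by
  have : nO R (A ∪ B) v = nO R A v ∪ nO R B v := by
    ext u
    simp only [mem_nO, mem_union]
    tauto
  rw [this]
  exact card_union_le _ _

theorem poor_sub_lin (hT : AE32.Tour R) {X : Finset V} {w t : ℕ} (h : 3 * w + t ≤ X.card) :
    poor R X w t ⊆ lin R X w := by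
  intro u hu
  rw [mem_poor] at hu
  by_contra hc
  have h1 : (nO R X u).card < w := by
    by_contra h2
    exact hc (mem_lin.2 ⟨hu.1, by omega⟩)
  have h2 := card_nO_add_nI' hT hu.1
  have h3 : (nI R X u).card ≤ (nI R (lin R X w) u).card + (nI R (X \ lin R X w) u).card := by
    have h4 := nI_union_card (R := R) (A := lin R X w) (B := X \ lin R X w) u
    rwa [union_sdiff_of_subset lin_sub] at h4
  have h4 : (nI R (X \ lin R X w) u).card ≤ 2 * w :=
    (card_le_card nI_sub).trans (card_sdiff_lin hT X w)
  omega

theorem card_poor (hT : AE32.Tour R) {X : Finset V} {w t : ℕ} (h : 3 * w + t ≤ X.card) :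
    (poor R X w t).card ≤ 2 * t := by
  refine le_trans (card_le_card ?_) (AEB.card_lowin hT (lin R X w) t)
  intro u hu
  rw [mem_filter]
  exact ⟨poor_sub_lin hT h hu, (mem_poor.1 hu).2⟩

/-- a poor vertex dominates all but `t` vertices of `lin R X w` -/
theorem poor_dom (hT : AE32.Tour R) {X S : Finset V} {w t : ℕ} {u : V} (hu : u ∈ poor R X w t)
    (hS : S ⊆ lin R X w) : (S \ nO R S u).card ≤ t := by
  have h1 : S \ nO R S u ⊆ insert u (nI R (lin R X w) u) := by
    intro a ha
    rw [mem_sdiff, mem_nO] at ha
    rw [mem_insert, mem_nI]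
    by_cases e : a = u
    · exact Or.inl e
    · right
      rcases hT.tot a u e with h | h
      · exact ⟨hS ha.1, h⟩
      · exact absurd ⟨ha.1, h⟩ ha.2
  have h2 := card_le_card h1
  have h3 := card_insert_le u (nI R (lin R X w) u)
  have h4 := (mem_poor.1 hu).2
  omega

/-- **capacity**: every vertex which is not poor has many in-neighbours of large out-degree, in the part
cut off or outside it -/
theorem cap {X P₁ Y P₂ : Finset V} {w t : ℕ} {h : V} (hX : X ⊆ P₁ ∪ Y ∪ P₂) (hh : h ∈ X)
    (hn : h ∉ poor R X w t) :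
    t ≤ (nI R (P₁ ∩ lin R X w) h).card + Y.card + (nI R (P₂ ∩ lin R X w) h).card := by
  have h1 : t ≤ (nI R (lin R X w) h).card := by
    by_contra hc
    exact hn (mem_poor.2 ⟨hh, by omega⟩)
  have h2 : nI R (lin R X w) h ⊆ nI R ((P₁ ∩ lin R X w ∪ Y) ∪ P₂ ∩ lin R X w) h := by
    apply nI_mono
    intro u hu
    have := hX (lin_sub hu)
    simp only [mem_union, mem_inter] at this ⊢
    tauto
  have h3 := card_le_card h2
  have h4 := nI_union_card (R := R) (A := P₁ ∩ lin R X w ∪ Y) (B := P₂ ∩ lin R X w) h
  have h5 := nI_union_card (R := R) (A := P₁ ∩ lin R X w) (B := Y) h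
  have h6 : (nI R Y h).card ≤ Y.card := card_le_card nI_sub
  omega

/-- if every vertex of `B` has fewer than `t` in-neighbours in `A`, then all but `2 * t` vertices of `A`
are dominated by at least half of `B` -/
theorem card_not_half (hT : AE32.Tour R) {A B : Finset V} {t : ℕ} (hAB : Disjoint A B)
    (hB : B.Nonempty) (h : ∀ b ∈ B, (nI R A b).card < t) :
    (A.filter (fun a => 2 * (nI R B a).card < B.card)).card ≤ 2 * t := by
  set L := A.filter (fun a => 2 * (nI R B a).card < B.card) with hL
  have h1 : ∑ a ∈ L, (nO R B a).card ≤ ∑ a ∈ A, (nO R B a).card :=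
    sum_le_sum_of_subset (filter_subset _ _)
  rw [sum_nO_eq_sum_nI A B] at h1
  have h2 : ∑ b ∈ B, (nI R A b).card ≤ ∑ b ∈ B, t := sum_le_sum (fun b hb => (h b hb).le)
  rw [sum_const, smul_eq_mul] at h2
  have h3 : ∑ a ∈ L, B.card ≤ ∑ a ∈ L, 2 * (nO R B a).card := by
    refine sum_le_sum (fun a ha => ?_)
    rw [hL, mem_filter] at ha
    have := card_nO_add_nI hT (disjoint_left.1 hAB ha.1)
    omega
  rw [sum_const, smul_eq_mul, ← mul_sum] at h3
  have h4 : L.card * B.card ≤ 2 * t * B.card := by
    calc L.card * B.card ≤ 2 * ∑ a ∈ L, (nO R B a).card := h3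
      _ ≤ 2 * (B.card * t) := by omega
      _ = 2 * t * B.card := by ring
  exact Nat.le_of_mul_le_mul_right h4 (card_pos.2 hB)

end Pool.Agent.H12AE
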