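import Pool.Agent.H12AE.Scale

/-!
# A reserved class which leaves something of every set of a family

`exists_class`: `A` has a subset `Z` of about `|A| / N` elements such that every member of a family
with at most `K (k + 1)` members of each size `k` keeps a quarter of its elements outside `Z` (the
small members keep all their elements) and each of `M` further sets has a proportional part inside
`Z`, up to a constant. The constant does not depend on `A`.
-/

set_option autoImplicit false

namespace Pool.Agent.H12AE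

open Finset
open scoped Classical

/-- few members of the family are small -/
theorem card_small {V ι : Type*} (K : ℝ) (m₀ : ℕ) (I : Finset ι) (D : ι → Finset V)
    (hK : ∀ k : ℕ, ((I.filter (fun j => (D j).card = k)).card : ℝ) ≤ K * (k + 1)) :
    (I.filter (fun j => (D j).card < m₀)).card ≤ ∑ k ∈ range m₀, ⌈K * (k + 1)⌉₊ := by
  have h1 : I.filter (fun j => (D j).card < m₀) =
      (range m₀).biUnion (fun k => I.filter (fun j => (D j).card = k)) := by
    ext j
    simp only [mem_filter, mem_biUnion, mem_range]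
    constructor
    · rintro ⟨h1, h2⟩
      exact ⟨_, h2, h1, rfl⟩
    · rintro ⟨k, h1, h2, rfl⟩
      exact ⟨h2, h1⟩
  rw [h1]
  refine card_biUnion_le.trans (sum_le_sum (fun k _ => ?_))
  have h2 := (hK k).trans (Nat.le_ceil (K * (k + 1)))
  exact_mod_cast h2

theorem card_inter_add {V : Type*} {A X : Finset V} {S : Finset V} (hS : S ⊆ A) :
    S.card ≤ (S ∩ X).card + (A \ X).card := by
  have h1 : S ⊆ (S ∩ X) ∪ (A \ X) := by
    intro u hu
    simp only [mem_union, mem_inter, mem_sdiff]
    by_cases h : u ∈ X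
    · exact Or.inl ⟨hu, h⟩
    · exact Or.inr ⟨hS hu, h⟩
  exact (card_le_card h1).trans (card_union_le _ _)

theorem exists_class (N : ℕ) (K : ℝ) (M : ℕ) (hN : 2 ≤ N) :
    ∃ c : ℕ, ∀ {V ι κ : Type*} (A : Finset V) (I : Finset ι) (D : ι → Finset V),
      (∀ j ∈ I, D j ⊆ A) →
      (∀ k : ℕ, ((I.filter (fun j => (D j).card = k)).card : ℝ) ≤ K * (k + 1)) →
      ∀ (H : Finset κ) (E : κ → Finset V), (∀ h ∈ H, E h ⊆ A) → H.card ≤ M →
      ∃ Z ⊆ A, N * Z.card ≤ A.card ∧ A.card ≤ N * Z.card + c ∧
        (∀ j ∈ I, (D j).card ≤ 4 * (D j \ Z).card) ∧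
        (∀ h ∈ H, (E h).card ≤ 2 * N * (E h ∩ Z).card + c) ∧
        (∀ h ∈ H, N * (E h ∩ Z).card ≤ 2 * (E h).card + c) := by
  have hN0 : 0 < N := by omega
  have hN' : (0 : ℝ) < N := by exact_mod_cast hN0
  have hε : (0 : ℝ) < 1 / (4 * N) := by positivity
  have hc : (0 : ℝ) < 3 / 20 / N := by positivity
  set K' : ℝ := (N + 1) * (|K| * (N + 1)) + M with hK'
  obtain ⟨j₀, hj₀⟩ := sum_exp_small K' hc hε
  set m₀ : ℕ := j₀ + N with hm₀
  set B : ℕ := ∑ k ∈ range m₀, ⌈K * (k + 1)⌉₊ with hB
  refine ⟨2 * N * (B * m₀) + N + N * m₀ + m₀, fun {V ι κ} A I D hD hK H E hE hM => ?_⟩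
  -- remove fewer than `N` elements such that `N` divides the number
  obtain ⟨X, hXA, hXc⟩ : ∃ X ⊆ A, X.card = N * (A.card / N) :=
    exists_subset_card_eq (Nat.mul_div_le A.card N)
  have hAX : (A \ X).card < N := by
    rw [card_sdiff_of_subset hXA, hXc]
    have := Nat.div_add_mod A.card N
    have := Nat.mod_lt A.card hN0
    omega
  -- large members
  let I₁ := I.filter (fun j => m₀ ≤ (D j).card)
  let H₁ := H.filter (fun h => m₀ ≤ (E h).card)
  let J : Finset (ι ⊕ κ) := I₁.disjSum H₁
  let T : ι ⊕ κ → Finset V := Sum.elim (fun j => D j ∩ X) (fun h => E h ∩ X)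
  have hTX : ∀ j ∈ J, T j ⊆ X := by
    rintro (j | h) _
    · exact inter_subset_right
    · exact inter_subset_right
  have hTc : ∀ j ∈ J, j₀ ≤ (T j).card := by
    rintro (j | h) hj
    · simp only [J, inl_mem_disjSum, I₁, mem_filter] at hj
      have := card_inter_add (X := X) (hD j hj.1)
      simp only [T, Sum.elim_inl]
      omega
    · simp only [J, inr_mem_disjSum, H₁, mem_filter] at hj
      have := card_inter_add (X := X) (hE h hj.1)
      simp only [T, Sum.elim_inr]
      omega
  have hcount : ∀ k : ℕ, ((J.filter (fun j => (T j).card = k)).card : ℝ) ≤ K' * (k + 1) := by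
    intro k
    have h1 : (J.filter (fun j => (T j).card = k)).card ≤
        (∑ i ∈ range (N + 1), (I.filter (fun j => (D j).card = k + i)).card) + H.card := by
      have h2 : J.filter (fun j => (T j).card = k) ⊆
          ((range (N + 1)).biUnion (fun i => I.filter (fun j => (D j).card = k + i))).disjSum H := by
        rintro (j | h) hj
        · simp only [mem_filter, J, inl_mem_disjSum, I₁, T, Sum.elim_inl] at hj
          simp only [inl_mem_disjSum, mem_biUnion, mem_range, mem_filter]
          have := card_inter_add (X := X) (hD j hj.1.1)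
          have h3 : (D j ∩ X).card ≤ (D j).card := card_le_card inter_subset_left
          exact ⟨(D j).card - k, by omega, hj.1.1, by omega⟩
        · simp only [mem_filter, J, inr_mem_disjSum, H₁] at hj
          simp only [inr_mem_disjSum]
          exact hj.1.1
      refine (card_le_card h2).trans ?_
      rw [card_disjSum]
      exact Nat.add_le_add_right card_biUnion_le _
    have h2 : (((∑ i ∈ range (N + 1), (I.filter (fun j => (D j).card = k + i)).card) + H.card : ℕ) : ℝ) ≤
        K' * (k + 1) := by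
      push_cast
      have h3 : ∑ i ∈ range (N + 1), ((I.filter (fun j => (D j).card = k + i)).card : ℝ) ≤
          ∑ i ∈ range (N + 1), |K| * ((N + 1) * (k + 1)) := by
        refine sum_le_sum (fun i hi => ?_)
        rw [mem_range] at hi
        refine (hK (k + i)).trans ?_
        refine (mul_le_mul_of_nonneg_right (le_abs_self K) (by positivity)).trans ?_
        refine mul_le_mul_of_nonneg_left ?_ (abs_nonneg K)
        push_cast
        have h4 : (i : ℝ) ≤ N := by exact_mod_cast (by omega : i ≤ N)
        nlinarith [(Nat.cast_nonneg k : (0 : ℝ) ≤ k), (Nat.cast_nonneg N : (0 : ℝ) ≤ N)]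
      rw [sum_const, card_range, nsmul_eq_mul] at h3
      have h5 : (H.card : ℝ) ≤ M := by exact_mod_cast hM
      have h6 : (M : ℝ) ≤ M * (k + 1) := by
        nlinarith [(Nat.cast_nonneg k : (0 : ℝ) ≤ k), (Nat.cast_nonneg M : (0 : ℝ) ≤ M)]
      rw [hK']
      push_cast at h3
      nlinarith
    have h3 : ((J.filter (fun j => (T j).card = k)).card : ℝ) ≤
        (((∑ i ∈ range (N + 1), (I.filter (fun j => (D j).card = k + i)).card) + H.card : ℕ) : ℝ) := by
      exact_mod_cast h1
    exact h3.trans h2
  have hsum : 2 * (N : ℝ) * ∑ j ∈ J, Real.exp (-(3 / 20 * (T j).card / N)) < 1 := by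
    have e1 := hj₀ J T hTc hcount
    have key : ∀ (c : ℝ), (3 / 20 * c / N) = 3 / 20 / N * c := fun c => by ring
    simp only [key]
    have e5 : 2 * (N : ℝ) * (1 / (4 * N)) = 1 / 2 := by
      field_simp; norm_num
    have e6 := mul_lt_mul_of_pos_left e1 (by positivity : (0 : ℝ) < 2 * N)
    linarith
  obtain ⟨f, hf1, hf2⟩ := exists_split_scale X N (A.card / N) hN0 hXc J T hTX hsum
  haveI : NeZero N := ⟨hN0.ne'⟩
  set Z₀ := X.filter (fun x => f x = 0) with hZ₀
  set S := (I.filter (fun j => (D j).card < m₀)).biUnion D with hS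
  have hSc : S.card ≤ B * m₀ := by
    refine card_biUnion_le.trans ?_
    refine (sum_le_card_nsmul _ _ m₀ (fun j hj => (mem_filter.1 hj).2.le)).trans ?_
    rw [smul_eq_mul]
    exact Nat.mul_le_mul_right _ (card_small K m₀ I D hK)
  have hZ₀c : Z₀.card = A.card / N := hf1 0
  refine ⟨Z₀ \ S, (sdiff_subset.trans (filter_subset _ _)).trans hXA, ?_, ?_, ?_, ?_, ?_⟩
  · have h1 : (Z₀ \ S).card ≤ A.card / N := (card_le_card sdiff_subset).trans hZ₀c.le
    exact (Nat.mul_le_mul_left N h1).trans (Nat.mul_div_le _ _)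
  · have h1 : Z₀.card ≤ (Z₀ \ S).card + S.card := by
      have := le_card_sdiff S Z₀
      omega
    have h2 := Nat.div_add_mod A.card N
    have h3 := Nat.mod_lt A.card hN0
    have h4 : N * (A.card / N) ≤ N * ((Z₀ \ S).card + B * m₀) := by
      apply Nat.mul_le_mul_left
      omega
    have h5 : N * ((Z₀ \ S).card + B * m₀) = N * (Z₀ \ S).card + N * (B * m₀) := by ring
    have h6 : N * (B * m₀) ≤ 2 * N * (B * m₀) := by nlinarith [Nat.zero_le (N * (B * m₀))]
    omega
  · intro j hj
    by_cases hc : (D j).card < m₀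
    · have h1 : D j \ (Z₀ \ S) = D j := by
        rw [Finset.sdiff_eq_self_iff_disjoint, disjoint_left]
        intro u hu hu'
        exact (mem_sdiff.1 hu').2 (mem_biUnion.2 ⟨j, mem_filter.2 ⟨hj, hc⟩, hu⟩)
      rw [h1]
      omega
    · have hj' : Sum.inl j ∈ J := by
        simp only [J, inl_mem_disjSum, I₁, mem_filter]
        exact ⟨hj, by omega⟩
      have h1 : ∀ i, ((D j ∩ X).card : ℝ) ≤ 2 * N * (((D j ∩ X).filter (fun x => f x = i)).card : ℝ) :=
        fun i => (hf2 _ hj' i).1
      have h2 : (N : ℝ) * (D j ∩ X).card ≤ 2 * N * (((D j ∩ X) \ Z₀).card : ℝ) + (D j ∩ X).card := by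
        have h3 : (((D j ∩ X) \ Z₀).card : ℝ) =
            ∑ i ∈ (univ : Finset (Fin N)).erase 0, (((D j ∩ X).filter (fun x => f x = i)).card : ℝ) := by
          have h4 : ((D j ∩ X) \ Z₀) =
              ((univ : Finset (Fin N)).erase 0).biUnion (fun i => (D j ∩ X).filter (fun x => f x = i)) := by
            ext u
            simp only [mem_sdiff, mem_inter, hZ₀, mem_filter, mem_biUnion, mem_erase, mem_univ, and_true]
            constructor
            · rintro ⟨⟨h5, h6⟩, h7⟩
              exact ⟨f u, fun h8 => h7 ⟨h6, h8⟩, ⟨h5, h6⟩, rfl⟩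
            · rintro ⟨i, h5, h6, rfl⟩
              exact ⟨h6, fun h7 => h5 h7.2⟩
          rw [h4, card_biUnion]
          · push_cast
            rfl
          · intro i _ i' _ hii'
            show Disjoint _ _
            rw [disjoint_left]
            intro u hu hu'
            exact hii' ((mem_filter.1 hu).2.symm.trans (mem_filter.1 hu').2)
        have h5 : ∑ i ∈ (univ : Finset (Fin N)).erase 0, ((D j ∩ X).card : ℝ) ≤
            ∑ i ∈ (univ : Finset (Fin N)).erase 0,
              2 * N * (((D j ∩ X).filter (fun x => f x = i)).card : ℝ) :=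
          sum_le_sum (fun i _ => h1 i)
        rw [sum_const, card_erase_of_mem (mem_univ _), card_univ, Fintype.card_fin, nsmul_eq_mul,
          ← mul_sum, ← h3] at h5
        have h6 : ((N - 1 : ℕ) : ℝ) = N - 1 := by
          rw [Nat.cast_sub (by omega)]
          simp
        rw [h6] at h5
        linarith
      have h3 : ((D j ∩ X) \ Z₀).card + (D j \ X).card ≤ (D j \ (Z₀ \ S)).card := by
        rw [← card_union_of_disjoint]
        · apply card_le_card
          intro u
          simp only [mem_union, mem_sdiff, mem_inter, hZ₀, mem_filter]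
          tauto
        · rw [disjoint_left]
          intro u
          simp only [mem_sdiff, mem_inter]
          tauto
      have h4 : (D j).card = (D j ∩ X).card + (D j \ X).card := (card_inter_add_card_sdiff _ _).symm
      have h5 : ((D j ∩ X).card : ℝ) ≤ 4 * (((D j ∩ X) \ Z₀).card : ℝ) := by
        have hN2 : (2 : ℝ) ≤ N := by exact_mod_cast hN
        have h6 : (0 : ℝ) ≤ ((D j ∩ X).card : ℝ) := by positivity
        have h7 : (N : ℝ) * (D j ∩ X).card ≤ N * (4 * (((D j ∩ X) \ Z₀).card : ℝ)) := by
          nlinarith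
        exact le_of_mul_le_mul_left h7 hN'
      have h6 : (D j ∩ X).card ≤ 4 * ((D j ∩ X) \ Z₀).card := by exact_mod_cast h5
      omega
  · intro h hh
    have h0 : (E h ∩ X ∩ Z₀).card ≤ (E h ∩ (Z₀ \ S)).card + B * m₀ := by
      have h1 : E h ∩ X ∩ Z₀ ⊆ (E h ∩ (Z₀ \ S)) ∪ S := by
        intro u
        simp only [mem_union, mem_sdiff, mem_inter]
        tauto
      exact ((card_le_card h1).trans (card_union_le _ _)).trans (Nat.add_le_add_left hSc _)
    by_cases hc : (E h).card < m₀
    · omega
    · have hj' : Sum.inr h ∈ J := by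
        simp only [J, inr_mem_disjSum, H₁, mem_filter]
        exact ⟨hh, by omega⟩
      have h1 : ((E h ∩ X).card : ℝ) ≤ 2 * N * (((E h ∩ X).filter (fun x => f x = 0)).card : ℝ) :=
        (hf2 _ hj' 0).1
      have h2 : (E h ∩ X).filter (fun x => f x = 0) = E h ∩ X ∩ Z₀ := by
        ext u
        simp only [mem_filter, mem_inter, hZ₀]
        tauto
      rw [h2] at h1
      have h3 : (E h ∩ X).card ≤ 2 * N * (E h ∩ X ∩ Z₀).card := by exact_mod_cast h1
      have h4 := card_inter_add (X := X) (hE h hh)
      have h5 : 2 * N * (E h ∩ X ∩ Z₀).card ≤ 2 * N * ((E h ∩ (Z₀ \ S)).card + B * m₀) :=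
        Nat.mul_le_mul_left _ h0
      have h6 : 2 * N * ((E h ∩ (Z₀ \ S)).card + B * m₀) =
        2 * N * (E h ∩ (Z₀ \ S)).card + 2 * N * (B * m₀) := by ring
      omega
  · intro h hh
    have h0 : (E h ∩ (Z₀ \ S)).card ≤ (E h ∩ X ∩ Z₀).card := by
      apply card_le_card
      intro u
      simp only [mem_sdiff, mem_inter, hZ₀, mem_filter]
      tauto
    by_cases hc : (E h).card < m₀
    · have h1 : (E h ∩ (Z₀ \ S)).card ≤ m₀ := (card_le_card inter_subset_left).trans hc.le
      have h2 : N * (E h ∩ (Z₀ \ S)).card ≤ N * m₀ := Nat.mul_le_mul_left _ h1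
      omega
    · have hj' : Sum.inr h ∈ J := by
        simp only [J, inr_mem_disjSum, H₁, mem_filter]
        exact ⟨hh, by omega⟩
      have h1 : (N : ℝ) * (((E h ∩ X).filter (fun x => f x = 0)).card : ℝ) ≤ 2 * (E h ∩ X).card :=
        (hf2 _ hj' 0).2
      have h2 : (E h ∩ X).filter (fun x => f x = 0) = E h ∩ X ∩ Z₀ := by
        ext u
        simp only [mem_filter, mem_inter, hZ₀]
        tauto
      rw [h2] at h1
      have h3 : N * (E h ∩ X ∩ Z₀).card ≤ 2 * (E h ∩ X).card := by exact_mod_cast h1
      have h4 : (E h ∩ X).card ≤ (E h).card := card_le_card inter_subset_left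
      have h5 : N * (E h ∩ (Z₀ \ S)).card ≤ N * (E h ∩ X ∩ Z₀).card := Nat.mul_le_mul_left _ h0
      omega

end Pool.Agent.H12AE
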