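import Pool.Agent.AEM.Order
import Pool.Agent.AE15.Structure

/-!
# Positions in a median order are closures

Let `p` be a median order of `X` and let `C` be a subset of `X` which contains the in-neighbours of `v`
and such that every vertex of `X` outside `C` has at most `k` out-neighbours in `C`. Then `C` contains
all but at most `8 k` of the vertices before `v`. Dually for the vertices after `v`.
-/

set_option autoImplicit false

namespace Pool.Agent.H12AE

open Finset _root_.AE15 AEM
open scoped Classical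

variable {V : Type*} {R : V → V → Prop} {X : Finset V} {p : V → ℕ}

/-- the vertices before `v` -/
noncomputable def bef (X : Finset V) (p : V → ℕ) (v : V) : Finset V := X.filter (fun u => p u < p v)

/-- the vertices after `v` -/
noncomputable def aft (X : Finset V) (p : V → ℕ) (v : V) : Finset V := X.filter (fun u => p v < p u)

theorem mem_bef {v u : V} : u ∈ bef X p v ↔ u ∈ X ∧ p u < p v := by simp [bef]

theorem mem_aft {v u : V} : u ∈ aft X p v ↔ u ∈ X ∧ p v < p u := by simp [aft]

theorem card_bef (h : MedO R X p) {v : V} (hv : v ∈ X) : (bef X p v).card = p v := by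
  have h1 := h.card_seg (a := 0) (b := p v) (h.lt v hv).le
  rw [← Nat.sub_zero (p v), ← h1]
  congr 1
  ext u
  simp [mem_bef]

theorem closure_in (h : MedO R X p) (hT : AE32.Tour R) {v : V} (hv : v ∈ X) {C : Finset V}
    (hCX : C ⊆ X) (hN : nI R X v ⊆ C) {k : ℕ} (hC : ∀ z ∈ X, z ∉ C → (nO R C z).card ≤ k) :
    (bef X p v \ C).card ≤ 8 * k := by
  set S := bef X p v \ C with hS
  have hSX : S ⊆ X := sdiff_subset.trans (filter_subset _ _)
  have hSc : ∀ s ∈ S, s ∈ X ∧ p s < p v ∧ s ∉ C := by
    intro s hs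
    rw [hS, mem_sdiff, mem_bef] at hs
    exact ⟨hs.1.1, hs.1.2, hs.2⟩
  have h1 := h.back v hv S hSX (fun u hu => (hSc u hu).2.1)
  have h2 : ∑ u ∈ S, (X.filter (fun w => w ∉ S ∧ p u < p w ∧ p w ≤ p v ∧ R u w)).card ≤ S.card * k := by
    refine (sum_le_card_nsmul _ _ k ?_).trans (by rw [smul_eq_mul])
    intro u hu
    refine (card_le_card ?_).trans (hC u (hSc u hu).1 (hSc u hu).2.2)
    intro w hw
    rw [mem_filter] at hw
    rw [mem_nO]
    refine ⟨?_, hw.2.2.2.2⟩
    have hwv : w ≠ v := by
      rintro rfl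
      exact (hSc u hu).2.2 (hN (mem_nI.2 ⟨(hSc u hu).1, hw.2.2.2.2⟩))
    have hlt : p w < p v := by
      rcases lt_or_eq_of_le hw.2.2.2.1 with h3 | h3
      · exact h3
      · exact absurd (h.inj w hw.1 v hv h3) hwv
    by_contra hwC
    exact hw.2.1 (by rw [hS, mem_sdiff, mem_bef]; exact ⟨⟨hw.1, hlt⟩, hwC⟩)
  have h3 : ∑ u ∈ S, (C.filter (fun w => p u < p w ∧ p w < p v)).card ≤
      ∑ u ∈ S, (X.filter (fun w => w ∉ S ∧ p u < p w ∧ p w ≤ p v ∧ R w u)).card + S.card * k := by
    rw [← smul_eq_mul, ← sum_const, ← sum_add_distrib]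
    refine sum_le_sum (fun u hu => ?_)
    refine le_trans ?_ (Nat.add_le_add_left (hC u (hSc u hu).1 (hSc u hu).2.2) _)
    refine le_trans (card_le_card ?_) (card_union_le _ _)
    intro w hw
    rw [mem_filter] at hw
    rw [mem_union, mem_filter, mem_nO]
    have hwu : w ≠ u := by
      rintro rfl
      exact (hSc w hu).2.2 hw.1
    rcases hT.tot w u hwu with h4 | h4
    · refine Or.inl ⟨hCX hw.1, ?_, hw.2.1, hw.2.2.le, h4⟩
      intro hwS
      exact (hSc w hwS).2.2 hw.1
    · exact Or.inr ⟨hw.1, h4⟩
  have h4 : ∑ u ∈ S, (C.filter (fun w => p u < p w ∧ p w < p v)).card ≤ 2 * k * S.card := by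
    calc ∑ u ∈ S, (C.filter (fun w => p u < p w ∧ p w < p v)).card ≤ S.card * k + S.card * k :=
          h3.trans (Nat.add_le_add_right (h1.trans h2) _)
      _ = 2 * k * S.card := by ring
  -- the last `|S|` places before `v`
  rcases Nat.eq_zero_or_pos S.card with h0 | h0
  · omega
  have hSle : S.card ≤ p v := by
    rw [← card_bef h hv]
    exact card_le_card sdiff_subset
  obtain ⟨x, hx, hx0⟩ := h.exists_pos (show p v - S.card < X.card from
    lt_of_le_of_lt (Nat.sub_le _ _) (h.lt v hv))
  have h5 := h.in_half hT hx hv (by omega)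
  rw [hx0] at h5
  set A := X.filter (fun w => p v - S.card ≤ p w ∧ p w < p v ∧ R w v) with hA
  have hAC : A ⊆ C := by
    intro w hw
    rw [hA, mem_filter] at hw
    exact hN (mem_nI.2 ⟨hw.1, hw.2.2.2⟩)
  set L := X.filter (fun w => p v - S.card ≤ p w ∧ p w < p v) with hL
  have hLc : L.card = S.card := by
    have := h.card_seg (a := p v - S.card) (b := p v) (h.lt v hv).le
    rw [hL, this]
    omega
  have h6 : (S ∩ L).card + A.card ≤ S.card := by
    rw [← hLc, ← card_union_of_disjoint]
    · apply card_le_card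
      intro w hw
      rw [mem_union, mem_inter] at hw
      rcases hw with h7 | h7
      · exact h7.2
      · rw [hA, mem_filter] at h7
        rw [hL, mem_filter]
        exact ⟨h7.1, h7.2.1, h7.2.2.1⟩
    · rw [disjoint_left]
      intro w hw hw'
      exact (hSc w (mem_inter.1 hw).1).2.2 (hAC hw')
  have h7 : A.card ≤ (S \ L).card := by
    have := card_inter_add_card_sdiff S L
    omega
  have h8 : (S \ L).card * A.card ≤ ∑ u ∈ S, (C.filter (fun w => p u < p w ∧ p w < p v)).card := by
    refine le_trans ?_ (sum_le_sum_of_subset (sdiff_subset (s := S) (t := L)))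
    rw [← smul_eq_mul]
    refine card_nsmul_le_sum _ _ _ (fun u hu => ?_)
    apply card_le_card
    intro w hw
    rw [mem_filter]
    refine ⟨hAC hw, ?_, ?_⟩
    · rw [hA, mem_filter] at hw
      rw [mem_sdiff, hL, mem_filter] at hu
      have h9 := (hSc u hu.1).2.1
      have h10 : p u < p v - S.card := by
        by_contra hc
        exact hu.2 ⟨(hSc u hu.1).1, by omega, h9⟩
      omega
    · rw [hA, mem_filter] at hw
      exact hw.2.2.1
  have h9 : A.card * A.card ≤ 4 * k * A.card := by
    calc A.card * A.card ≤ (S \ L).card * A.card := Nat.mul_le_mul_right _ h7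
      _ ≤ 2 * k * S.card := h8.trans h4
      _ ≤ 2 * k * (2 * A.card) := Nat.mul_le_mul_left _ (by omega)
      _ = 4 * k * A.card := by ring
  have h10 : 0 < A.card := by omega
  have h11 := Nat.le_of_mul_le_mul_right h9 h10
  omega

theorem closure_out (h : MedO R X p) (hT : AE32.Tour R) {v : V} (hv : v ∈ X) {C : Finset V}
    (hCX : C ⊆ X) (hN : nO R X v ⊆ C) {k : ℕ} (hC : ∀ z ∈ X, z ∉ C → (nI R C z).card ≤ k) :
    (aft X p v \ C).card ≤ 8 * k := by
  have hT' : AE32.Tour (fun a b => R b a) :=
    ⟨hT.irr, fun a b h => (hT.tot a b h).symm, fun a b h => hT.asym b a h⟩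
  have h1 := closure_in (R := fun a b => R b a) h.rev hT' hv hCX (k := k) hN hC
  have h2 : bef X (fun u => X.card - 1 - p u) v = aft X p v := by
    ext u
    rw [mem_bef, mem_aft]
    constructor
    · rintro ⟨h3, h4⟩
      have := h.lt u h3
      have := h.lt v hv
      exact ⟨h3, by omega⟩
    · rintro ⟨h3, h4⟩
      have := h.lt u h3
      have := h.lt v hv
      exact ⟨h3, by omega⟩
  rwa [h2] at h1

/-- the part of the out-neighbourhood of `y` in a window of positions -/
theorem window_out (h : MedO R X p) (hT : AE32.Tour R) {y : V} (hy : y ∈ X) {lo hi : ℕ}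
    (hhi : hi ≤ X.card) : hi ≤ p y + 1 + 2 * (lo - (p y + 1)) +
      2 * (X.filter (fun u => lo ≤ p u ∧ p u < hi ∧ R y u)).card := by
  rcases Nat.lt_or_ge (p y + 1) hi with h1 | h1
  · obtain ⟨u, hu, hu0⟩ := h.exists_pos (show hi - 1 < X.card by omega)
    have h2 := h.out_half hT hy hu (by omega)
    rw [hu0] at h2
    have h3 : (X.filter (fun w => p y < p w ∧ p w ≤ hi - 1 ∧ R y w)).card ≤
        (X.filter (fun w => p y + 1 ≤ p w ∧ p w < lo)).card +
          (X.filter (fun u => lo ≤ p u ∧ p u < hi ∧ R y u)).card := by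
      refine le_trans (card_le_card ?_) (card_union_le _ _)
      intro w hw
      rw [mem_filter] at hw
      rw [mem_union, mem_filter, mem_filter]
      by_cases h4 : lo ≤ p w
      · exact Or.inr ⟨hw.1, h4, by omega, hw.2.2.2⟩
      · exact Or.inl ⟨hw.1, by omega, by omega⟩
    have h4 : (X.filter (fun w => p y + 1 ≤ p w ∧ p w < lo)).card ≤ lo - (p y + 1) := by
      have h5 : (X.filter (fun w => p y + 1 ≤ p w ∧ p w < lo)).card ≤
          (X.filter (fun w => p y + 1 ≤ p w ∧ p w < min lo X.card)).card := by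
        apply card_le_card
        intro w hw
        rw [mem_filter] at hw ⊢
        exact ⟨hw.1, hw.2.1, lt_min hw.2.2 (h.lt w hw.1)⟩
      rw [h.card_seg (min_le_right _ _)] at h5
      have : min lo X.card ≤ lo := min_le_left _ _
      omega
    omega
  · omega

end Pool.Agent.H12AE
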