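import Pool.Agent.AE15.SamplingProp

/-!
# Sampling at all scales at once

`exists_split_scale`: a set of size `N * m` is the disjoint union of `N` classes of size exactly `m`
such that every member `S` of a family meets every class in at least `|S| / (2 N)` and at most
`2 |S| / N` elements, provided the sum of `exp (-(3/20) |S| / N)` over the family is small. No
logarithm of the size of the ground set is needed if the number of members of size at most `j`
is linear in `j` (`sum_exp_small`).
-/

set_option autoImplicit false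

namespace Pool.Agent.H12AE

open Finset Pool.Agent.AE15

section core

variable {m N : ℕ} [NeZero N]

lemma card_bad_lo (S : Finset (Fin m × Fin N)) (i : Fin N) :
    ((Finset.univ.filter (fun s : Fin m → Fin N =>
      2 * (N : ℝ) * ((S.filter (fun x => x.2 + s x.1 = i)).card : ℝ) < S.card)).card : ℝ) ≤
        (N : ℝ) ^ m * Real.exp (-(3 / 20 * S.card / N)) := by
  have hN : (0 : ℝ) < N := by exact_mod_cast Nat.pos_of_ne_zero (NeZero.ne N)
  set bad := Finset.univ.filter (fun s : Fin m → Fin N =>
      2 * (N : ℝ) * ((S.filter (fun x => x.2 + s x.1 = i)).card : ℝ) < S.card) with hbad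
  have h2 : (bad.card : ℝ) * Real.exp (-(7 / 20 * S.card / N)) ≤
      (N : ℝ) ^ m * Real.exp (-((1 - 1 / 2) * S.card / N)) := by
    refine le_trans ?_ (sum_shift_q (q := 1 / 2) (by norm_num) S i)
    calc (bad.card : ℝ) * Real.exp (-(7 / 20 * S.card / N))
        = ∑ s ∈ bad, Real.exp (-(7 / 20 * S.card / N)) := by
          rw [Finset.sum_const, nsmul_eq_mul]
      _ ≤ ∑ s ∈ bad, (1 / 2 : ℝ) ^ (S.filter (fun x => x.2 + s x.1 = i)).card := by
          apply Finset.sum_le_sum
          intro s hs
          rw [hbad, mem_filter] at hs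
          have h3 := hs.2
          set t := (S.filter (fun x => x.2 + s x.1 = i)).card with ht
          have h4 : (t : ℝ) ≤ S.card / (2 * N) := by
            rw [le_div_iff₀ (by positivity)]
            linarith
          have h5 : (1 / 2 : ℝ) ^ t = Real.exp (-(Real.log 2 * t)) := by
            have : (1 / 2 : ℝ) = Real.exp (-(Real.log 2)) := by
              rw [Real.exp_neg, Real.exp_log (by norm_num)]; norm_num
            rw [this, ← Real.exp_nat_mul]
            congr 1; ring
          rw [h5]
          apply Real.exp_le_exp.2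
          have h6 := Real.log_two_lt_d9
          have h7 : Real.log 2 * t ≤ 7 / 10 * (S.card / (2 * N)) := by
            have h8 : (0 : ℝ) ≤ t := Nat.cast_nonneg _
            have h9 : Real.log 2 * t ≤ 7 / 10 * t := mul_le_mul_of_nonneg_right (by linarith) h8
            linarith [mul_le_mul_of_nonneg_left h4 (by norm_num : (0 : ℝ) ≤ 7 / 10)]
          have h10 : 7 / 10 * ((S.card : ℝ) / (2 * N)) = 7 / 20 * S.card / N := by
            field_simp; ring
          linarith
      _ ≤ _ := by
          apply Finset.sum_le_sum_of_subset_of_nonneg (Finset.subset_univ _)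
          intro s _ _
          positivity
  have h3 : (bad.card : ℝ) = (bad.card : ℝ) * Real.exp (-(7 / 20 * S.card / N)) *
      Real.exp (7 / 20 * S.card / N) := by
    rw [mul_assoc, ← Real.exp_add, neg_add_cancel, Real.exp_zero, mul_one]
  rw [h3]
  calc (bad.card : ℝ) * Real.exp (-(7 / 20 * S.card / N)) * Real.exp (7 / 20 * S.card / N)
      ≤ (N : ℝ) ^ m * Real.exp (-((1 - 1 / 2) * S.card / N)) * Real.exp (7 / 20 * S.card / N) :=
        mul_le_mul_of_nonneg_right h2 (Real.exp_pos _).le
    _ = (N : ℝ) ^ m * Real.exp (-(3 / 20 * S.card / N)) := by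
        rw [mul_assoc, ← Real.exp_add]
        congr 2
        ring

lemma card_bad_hi (S : Finset (Fin m × Fin N)) (i : Fin N) :
    ((Finset.univ.filter (fun s : Fin m → Fin N =>
      2 * (S.card : ℝ) < N * ((S.filter (fun x => x.2 + s x.1 = i)).card : ℝ))).card : ℝ) ≤
        (N : ℝ) ^ m * Real.exp (-(3 / 20 * S.card / N)) := by
  have hN : (0 : ℝ) < N := by exact_mod_cast Nat.pos_of_ne_zero (NeZero.ne N)
  set bad := Finset.univ.filter (fun s : Fin m → Fin N =>
      2 * (S.card : ℝ) < N * ((S.filter (fun x => x.2 + s x.1 = i)).card : ℝ)) with hbad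
  have h2 : (bad.card : ℝ) * Real.exp (23 / 20 * S.card / N) ≤
      (N : ℝ) ^ m * Real.exp (-((1 - 2) * S.card / N)) := by
    refine le_trans ?_ (sum_shift_q (q := 2) (by norm_num) S i)
    calc (bad.card : ℝ) * Real.exp (23 / 20 * S.card / N)
        = ∑ s ∈ bad, Real.exp (23 / 20 * S.card / N) := by
          rw [Finset.sum_const, nsmul_eq_mul]
      _ ≤ ∑ s ∈ bad, (2 : ℝ) ^ (S.filter (fun x => x.2 + s x.1 = i)).card := by
          apply Finset.sum_le_sum
          intro s hs
          rw [hbad, mem_filter] at hs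
          have h3 := hs.2
          set t := (S.filter (fun x => x.2 + s x.1 = i)).card with ht
          have h4 : (2 : ℝ) * S.card / N ≤ t := by
            rw [div_le_iff₀ hN]
            linarith
          have h5 : (2 : ℝ) ^ t = Real.exp (Real.log 2 * t) := by
            rw [mul_comm, Real.exp_nat_mul, Real.exp_log (by norm_num)]
          rw [h5]
          apply Real.exp_le_exp.2
          have h6 := Real.log_two_gt_d9
          have h8 : (0 : ℝ) ≤ t := Nat.cast_nonneg _
          have h9 : 23 / 40 * (t : ℝ) ≤ Real.log 2 * t :=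
            mul_le_mul_of_nonneg_right (by linarith) h8
          have h10 : 23 / 20 * (S.card : ℝ) / N = 23 / 40 * (2 * S.card / N) := by ring
          rw [h10]
          linarith [mul_le_mul_of_nonneg_left h4 (by norm_num : (0 : ℝ) ≤ 23 / 40)]
      _ ≤ _ := by
          apply Finset.sum_le_sum_of_subset_of_nonneg (Finset.subset_univ _)
          intro s _ _
          positivity
  have h3 : (bad.card : ℝ) = (bad.card : ℝ) * Real.exp (23 / 20 * S.card / N) *
      Real.exp (-(23 / 20 * S.card / N)) := by
    rw [mul_assoc, ← Real.exp_add, add_neg_cancel, Real.exp_zero, mul_one]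
  rw [h3]
  calc (bad.card : ℝ) * Real.exp (23 / 20 * S.card / N) * Real.exp (-(23 / 20 * S.card / N))
      ≤ (N : ℝ) ^ m * Real.exp (-((1 - 2) * S.card / N)) * Real.exp (-(23 / 20 * S.card / N)) :=
        mul_le_mul_of_nonneg_right h2 (Real.exp_pos _).le
    _ = (N : ℝ) ^ m * Real.exp (-(3 / 20 * S.card / N)) := by
        rw [mul_assoc, ← Real.exp_add]
        congr 2
        ring

lemma exists_shift_scale {ι : Type*} (I : Finset ι) (T : ι → Finset (Fin m × Fin N))
    (hc : 2 * (N : ℝ) * ∑ j ∈ I, Real.exp (-(3 / 20 * (T j).card / N)) < 1) :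
    ∃ s : Fin m → Fin N, ∀ j ∈ I, ∀ i : Fin N,
      ((T j).card : ℝ) ≤ 2 * N * (((T j).filter (fun x => x.2 + s x.1 = i)).card : ℝ) ∧
      N * (((T j).filter (fun x => x.2 + s x.1 = i)).card : ℝ) ≤ 2 * (T j).card := by
  classical
  by_contra hcon
  push Not at hcon
  have hN : (0 : ℝ) < N := by exact_mod_cast Nat.pos_of_ne_zero (NeZero.ne N)
  let lo : ι × Fin N → Finset (Fin m → Fin N) := fun q =>
    Finset.univ.filter (fun s : Fin m → Fin N =>
      2 * (N : ℝ) * (((T q.1).filter (fun x => x.2 + s x.1 = q.2)).card : ℝ) < (T q.1).card)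
  let hi : ι × Fin N → Finset (Fin m → Fin N) := fun q =>
    Finset.univ.filter (fun s : Fin m → Fin N =>
      2 * ((T q.1).card : ℝ) < N * (((T q.1).filter (fun x => x.2 + s x.1 = q.2)).card : ℝ))
  have hcov : (Finset.univ : Finset (Fin m → Fin N)) ⊆
      (I ×ˢ (Finset.univ : Finset (Fin N))).biUnion (fun q => lo q ∪ hi q) := by
    intro s _
    obtain ⟨j, hj, i, hi'⟩ := hcon s
    rw [mem_biUnion]
    refine ⟨(j, i), by simp [hj], ?_⟩
    rw [mem_union]
    by_cases h : ((T j).card : ℝ) ≤ 2 * N * (((T j).filter (fun x => x.2 + s x.1 = i)).card : ℝ)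
    · right
      have := hi' h
      simpa [hi] using this
    · left
      push Not at h
      simpa [lo] using h
  have h1 := (Finset.card_le_card hcov).trans Finset.card_biUnion_le
  rw [Finset.card_univ, Fintype.card_fun, Fintype.card_fin, Fintype.card_fin] at h1
  have h2 : ((N ^ m : ℕ) : ℝ) ≤ ∑ q ∈ I ×ˢ (Finset.univ : Finset (Fin N)),
      2 * ((N : ℝ) ^ m * Real.exp (-(3 / 20 * (T q.1).card / N))) := by
    calc ((N ^ m : ℕ) : ℝ) ≤ ∑ q ∈ I ×ˢ (Finset.univ : Finset (Fin N)),
          ((lo q ∪ hi q).card : ℝ) := by exact_mod_cast h1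
      _ ≤ _ := by
          apply Finset.sum_le_sum
          intro q _
          have h3 : ((lo q ∪ hi q).card : ℝ) ≤ (lo q).card + (hi q).card := by
            exact_mod_cast Finset.card_union_le _ _
          have h4 := card_bad_lo (T q.1) q.2
          have h5 := card_bad_hi (T q.1) q.2
          linarith
  rw [Finset.sum_product] at h2
  simp only [Finset.sum_const, Finset.card_univ, Fintype.card_fin, nsmul_eq_mul] at h2
  have h6 : ∑ j ∈ I, (N : ℝ) * (2 * ((N : ℝ) ^ m * Real.exp (-(3 / 20 * (T j).card / N)))) =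
      (N : ℝ) ^ m * (2 * N * ∑ j ∈ I, Real.exp (-(3 / 20 * (T j).card / N))) := by
    rw [Finset.mul_sum, Finset.mul_sum]
    apply Finset.sum_congr rfl
    intro j _
    ring
  rw [h6] at h2
  have h5 : (0 : ℝ) < (N : ℝ) ^ m := by positivity
  push_cast at h2
  nlinarith

end core

/-- **Sampling at all scales.** A set `X` of size `N * m` has a partition into `N` classes of size
exactly `m` such that every set `T j`, `j ∈ I`, meets every class in at least `|T j| / (2 N)` and at
most `2 |T j| / N` elements, provided `2 N ∑ exp (-(3/20) |T j| / N) < 1`. -/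
theorem exists_split_scale {A ι : Type*} [DecidableEq A] (X : Finset A) (N m : ℕ) (hN : 0 < N)
    (hX : X.card = N * m) (I : Finset ι) (T : ι → Finset A) (hF : ∀ j ∈ I, T j ⊆ X)
    (hc : 2 * (N : ℝ) * ∑ j ∈ I, Real.exp (-(3 / 20 * (T j).card / N)) < 1) :
    ∃ f : A → Fin N, (∀ i, (X.filter (fun x => f x = i)).card = m) ∧
      ∀ j ∈ I, ∀ i, ((T j).card : ℝ) ≤ 2 * N * (((T j).filter (fun x => f x = i)).card : ℝ) ∧
        N * (((T j).filter (fun x => f x = i)).card : ℝ) ≤ 2 * (T j).card := by
  classical
  have : NeZero N := ⟨hN.ne'⟩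
  have hcard : Fintype.card X = Fintype.card (Fin m × Fin N) := by
    rw [Fintype.card_coe, hX, Fintype.card_prod, Fintype.card_fin, Fintype.card_fin, mul_comm]
  let e : X ≃ Fin m × Fin N := Fintype.equivOfCardEq hcard
  let im : Finset A → Finset (Fin m × Fin N) := fun S =>
    Finset.univ.filter (fun q => ((e.symm q : X) : A) ∈ S)
  have him : ∀ S ⊆ X, ∀ P : Fin m × Fin N → Prop, [DecidablePred P] →
      ((im S).filter P).card = (S.filter (fun x => ∃ h : x ∈ X, P (e ⟨x, h⟩))).card := by
    intro S hS P _
    refine Finset.card_bij (fun q _ => ((e.symm q : X) : A)) ?_ ?_ ?_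
    · intro q hq
      simp only [im, mem_filter, mem_univ, true_and] at hq ⊢
      refine ⟨hq.1, (e.symm q).2, ?_⟩
      have : e ⟨((e.symm q : X) : A), (e.symm q).2⟩ = q := by
        rw [Subtype.coe_eta, Equiv.apply_symm_apply]
      rw [this]
      exact hq.2
    · intro q _ q' _ h
      exact e.symm.injective (Subtype.ext h)
    · intro x hx
      rw [mem_filter] at hx
      obtain ⟨hxS, hxX, hP⟩ := hx
      refine ⟨e ⟨x, hxX⟩, ?_, by simp⟩
      simp only [im, mem_filter, mem_univ, true_and, Equiv.symm_apply_apply]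
      exact ⟨hxS, hP⟩
  have himc : ∀ S ⊆ X, (im S).card = S.card := by
    intro S hS
    have h := him S hS (fun _ => True)
    rw [Finset.filter_true] at h
    rw [h]
    congr 1
    apply Finset.filter_true_of_mem
    intro x hx
    exact ⟨hS hx, trivial⟩
  obtain ⟨s, hs⟩ := exists_shift_scale I (fun j => im (T j)) (by
    have : ∑ j ∈ I, Real.exp (-(3 / 20 * ((im (T j)).card : ℝ) / N)) =
        ∑ j ∈ I, Real.exp (-(3 / 20 * ((T j).card : ℝ) / N)) := by
      apply Finset.sum_congr rfl
      intro j hj
      rw [himc _ (hF j hj)]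
    rw [this]
    exact hc)
  let f : A → Fin N := fun x => if h : x ∈ X then (e ⟨x, h⟩).2 + s (e ⟨x, h⟩).1 else 0
  have hf : ∀ S ⊆ X, ∀ i, (S.filter (fun x => f x = i)).card =
      ((im S).filter (fun q => q.2 + s q.1 = i)).card := by
    intro S hS i
    rw [him S hS]
    congr 1
    apply Finset.filter_congr
    intro x hx
    have hxX := hS hx
    simp only [f, dif_pos hxX]
    exact ⟨fun h => ⟨hxX, h⟩, fun ⟨_, h⟩ => h⟩
  refine ⟨f, fun i => ?_, fun j hj i => ?_⟩
  · rw [hf X (Finset.Subset.refl _)]
    have hu : im X = Finset.univ := by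
      apply Finset.filter_true_of_mem
      intro q _
      exact (e.symm q).2
    rw [hu, card_class]
    simp
  · rw [hf _ (hF j hj), ← himc _ (hF j hj)]
    exact hs j hj i

/-- If at most `K (j + 1)` members of a family have size exactly `j`, for every `j`, and all members
have size at least `j₀`, `j₀` large in terms of `c`, `K`, `ε`, then the exponential sum is small. -/
theorem sum_exp_small {c ε : ℝ} (K : ℝ) (hc : 0 < c) (hε : 0 < ε) :
    ∃ j₀ : ℕ, ∀ {A ι : Type*} (I : Finset ι) (T : ι → Finset A),
      (∀ j ∈ I, j₀ ≤ (T j).card) →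
      (∀ k : ℕ, ((I.filter (fun j => (T j).card = k)).card : ℝ) ≤ K * (k + 1)) →
      ∑ j ∈ I, Real.exp (-(c * (T j).card)) < ε := by
  let g : ℕ → ℝ := fun k => |K| * (k + 1) * Real.exp (-(c * k))
  have hg0 : ∀ k, 0 ≤ g k := fun k => by positivity
  have hgs : Summable g := by
    have h1 : Summable (fun k : ℕ => ((k : ℝ) ^ 1 * Real.exp (-(c * k)))) := by
      have := Real.summable_pow_mul_exp_neg_nat_mul 1 hc
      refine this.congr (fun k => ?_)
      congr 2
      ring
    have h2 : Summable (fun k : ℕ => ((k : ℝ) ^ 0 * Real.exp (-(c * k)))) := by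
      have := Real.summable_pow_mul_exp_neg_nat_mul 0 hc
      refine this.congr (fun k => ?_)
      congr 2
      ring
    refine ((h1.add h2).mul_left |K|).congr (fun k => ?_)
    simp only [g]
    ring
  have ht := tendsto_sum_nat_add g
  obtain ⟨j₀, hj₀⟩ := ((ht.eventually (gt_mem_nhds hε)).exists)
  refine ⟨j₀, fun I T hI hK => ?_⟩
  classical
  set M := I.sup (fun j => (T j).card) with hM
  have hmaps : ∀ j ∈ I, (T j).card - j₀ ∈ Finset.range (M + 1) := by
    intro j hj
    rw [Finset.mem_range]
    have : (T j).card ≤ M := Finset.le_sup (f := fun j => (T j).card) hj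
    omega
  calc ∑ j ∈ I, Real.exp (-(c * (T j).card))
      = ∑ k ∈ Finset.range (M + 1), ∑ j ∈ I.filter (fun j => (T j).card - j₀ = k),
          Real.exp (-(c * (T j).card)) := (Finset.sum_fiberwise_of_maps_to hmaps _).symm
    _ ≤ ∑ k ∈ Finset.range (M + 1), g (k + j₀) := by
        apply Finset.sum_le_sum
        intro k _
        have h1 : ∀ j ∈ I.filter (fun j => (T j).card - j₀ = k),
            Real.exp (-(c * (T j).card)) = Real.exp (-(c * ((k + j₀ : ℕ) : ℝ))) := by
          intro j hj
          rw [Finset.mem_filter] at hj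
          have := hI j hj.1
          have h2 : (T j).card = k + j₀ := by omega
          rw [h2]
        rw [Finset.sum_congr rfl h1, Finset.sum_const, nsmul_eq_mul]
        have h3 : (I.filter (fun j => (T j).card - j₀ = k)) ⊆
            I.filter (fun j => (T j).card = k + j₀) := by
          intro j hj
          rw [Finset.mem_filter] at hj ⊢
          have := hI j hj.1
          exact ⟨hj.1, by omega⟩
        have h4 : ((I.filter (fun j => (T j).card - j₀ = k)).card : ℝ) ≤
            K * (((k + j₀ : ℕ) : ℝ) + 1) :=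
          le_trans (by exact_mod_cast Finset.card_le_card h3) (hK _)
        have h5 : K * (((k + j₀ : ℕ) : ℝ) + 1) ≤ |K| * (((k + j₀ : ℕ) : ℝ) + 1) :=
          mul_le_mul_of_nonneg_right (le_abs_self K) (by positivity)
        exact mul_le_mul_of_nonneg_right (h4.trans h5) (Real.exp_pos _).le
    _ ≤ ∑' k, g (k + j₀) := by
        apply Summable.sum_le_tsum _ (fun k _ => hg0 _)
        exact (summable_nat_add_iff j₀).2 hgs
    _ < ε := hj₀

end Pool.Agent.H12AE
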