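import Pool.Agent.H12AE.Scale
import Pool.Agent.AEB.ChoiceX

/-!
# Sampling at all scales in a tournament

`exists_split_tour`: for every number `N` of classes and every `K` there is a constant `c₀`, not
depending on the tournament, such that every set `X` of size `N * m` in a tournament splits into `N`
classes of size exactly `m`, and every in- or out-neighbourhood in `X` of a vertex of `X` and every
member of a family with at most `K (k + 1)` members of each size `k` meets every class in the right
proportion up to a factor `2`, as soon as it has at least `c₀` elements.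
-/

set_option autoImplicit false

namespace Pool.Agent.H12AE

open Finset _root_.AE15
open scoped Classical

variable {V : Type*} {R : V → V → Prop}

theorem card_eq_in (hT : AE32.Tour R) (X : Finset V) (k : ℕ) :
    ((X.filter (fun v => (nI R X v).card = k)).card : ℝ) ≤ 2 * (k + 1) := by
  have h := AEB.card_lowin hT X (k + 1)
  have h1 : (X.filter (fun v => (nI R X v).card = k)).card ≤
      (X.filter (fun v => (nI R X v).card < k + 1)).card := by
    apply card_le_card
    intro v hv
    rw [mem_filter] at hv ⊢
    exact ⟨hv.1, by omega⟩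
  exact_mod_cast h1.trans h

theorem card_eq_out (hT : AE32.Tour R) (X : Finset V) (k : ℕ) :
    ((X.filter (fun v => (nO R X v).card = k)).card : ℝ) ≤ 2 * (k + 1) := by
  have hT' : AE32.Tour (fun a b => R b a) :=
    ⟨hT.irr, fun a b h => (hT.tot a b h).symm, fun a b h => hT.asym b a h⟩
  have h := card_eq_in hT' X k
  exact h

theorem exists_split_tour (N : ℕ) (K : ℝ) (hN : 0 < N) :
    ∃ c₀ : ℕ, ∀ {V ι : Type*} {R : V → V → Prop}, AE32.Tour R → ∀ (X : Finset V) (m : ℕ),
      X.card = N * m → ∀ (I : Finset ι) (D : ι → Finset V), (∀ j ∈ I, D j ⊆ X) →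
      (∀ k : ℕ, ((I.filter (fun j => (D j).card = k)).card : ℝ) ≤ K * (k + 1)) →
      ∃ f : V → Fin N, (∀ i, (X.filter (fun x => f x = i)).card = m) ∧
        (∀ v ∈ X, c₀ ≤ (nI R X v).card → ∀ i,
          ((nI R X v).card : ℝ) ≤ 2 * N * (((nI R X v).filter (fun x => f x = i)).card : ℝ) ∧
          N * (((nI R X v).filter (fun x => f x = i)).card : ℝ) ≤ 2 * (nI R X v).card) ∧
        (∀ v ∈ X, c₀ ≤ (nO R X v).card → ∀ i,
          ((nO R X v).card : ℝ) ≤ 2 * N * (((nO R X v).filter (fun x => f x = i)).card : ℝ) ∧
          N * (((nO R X v).filter (fun x => f x = i)).card : ℝ) ≤ 2 * (nO R X v).card) ∧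
        ∀ j ∈ I, c₀ ≤ (D j).card → ∀ i,
          ((D j).card : ℝ) ≤ 2 * N * (((D j).filter (fun x => f x = i)).card : ℝ) ∧
          N * (((D j).filter (fun x => f x = i)).card : ℝ) ≤ 2 * (D j).card := by
  have hN' : (0 : ℝ) < N := by exact_mod_cast hN
  have hε : (0 : ℝ) < 1 / (2 * N * 4) := by positivity
  have hc : (0 : ℝ) < 3 / 20 / N := by positivity
  obtain ⟨a, ha⟩ := sum_exp_small 2 hc hε
  obtain ⟨b, hb⟩ := sum_exp_small K hc hε
  refine ⟨max a b, fun {V ι R} hT X m hX I D hD hK => ?_⟩
  let J : Finset (V ⊕ V ⊕ ι) :=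
    ((X.filter (fun v => max a b ≤ (nI R X v).card)).disjSum
      ((X.filter (fun v => max a b ≤ (nO R X v).card)).disjSum
        (I.filter (fun j => max a b ≤ (D j).card))))
  let T : V ⊕ V ⊕ ι → Finset V :=
    Sum.elim (fun v => nI R X v) (Sum.elim (fun v => nO R X v) D)
  have key : ∀ (c : ℝ), (3 / 20 * c / N) = 3 / 20 / N * c := fun c => by ring
  have hsum : 2 * (N : ℝ) * ∑ j ∈ J, Real.exp (-(3 / 20 * (T j).card / N)) < 1 := by
    have e1 : ∑ v ∈ X.filter (fun v => max a b ≤ (nI R X v).card),
        Real.exp (-(3 / 20 / N * (nI R X v).card)) < 1 / (2 * N * 4) := by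
      apply ha _ (fun v => nI R X v)
      · intro v hv
        exact (le_max_left _ _).trans (mem_filter.1 hv).2
      · intro k
        refine le_trans ?_ (card_eq_in hT X k)
        exact_mod_cast card_le_card (filter_subset_filter _ (filter_subset _ _))
    have e2 : ∑ v ∈ X.filter (fun v => max a b ≤ (nO R X v).card),
        Real.exp (-(3 / 20 / N * (nO R X v).card)) < 1 / (2 * N * 4) := by
      apply ha _ (fun v => nO R X v)
      · intro v hv
        exact (le_max_left _ _).trans (mem_filter.1 hv).2
      · intro k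
        refine le_trans ?_ (card_eq_out hT X k)
        exact_mod_cast card_le_card (filter_subset_filter _ (filter_subset _ _))
    have e3 : ∑ j ∈ I.filter (fun j => max a b ≤ (D j).card),
        Real.exp (-(3 / 20 / N * (D j).card)) < 1 / (2 * N * 4) := by
      apply hb _ D
      · intro v hv
        exact (le_max_right _ _).trans (mem_filter.1 hv).2
      · intro k
        refine le_trans ?_ (hK k)
        exact_mod_cast card_le_card (filter_subset_filter _ (filter_subset _ _))
    have e4 : ∑ j ∈ J, Real.exp (-(3 / 20 * (T j).card / N)) =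
        ∑ v ∈ X.filter (fun v => max a b ≤ (nI R X v).card),
          Real.exp (-(3 / 20 / N * (nI R X v).card)) +
        (∑ v ∈ X.filter (fun v => max a b ≤ (nO R X v).card),
          Real.exp (-(3 / 20 / N * (nO R X v).card)) +
        ∑ j ∈ I.filter (fun j => max a b ≤ (D j).card),
          Real.exp (-(3 / 20 / N * (D j).card))) := by
      simp only [J, sum_disjSum, T, Sum.elim_inl, Sum.elim_inr, key]
    rw [e4]
    have e5 : 2 * (N : ℝ) * (1 / (2 * N * 4) + (1 / (2 * N * 4) + 1 / (2 * N * 4))) = 3 / 4 := by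
      field_simp; norm_num
    have e6 := mul_lt_mul_of_pos_left (add_lt_add e1 (add_lt_add e2 e3))
      (by positivity : (0 : ℝ) < 2 * N)
    linarith
  obtain ⟨f, hf1, hf2⟩ := exists_split_scale X N m hN hX J T (by
    rintro (v | v | j) hj
    · exact nI_sub
    · exact nO_sub
    · simp only [J, inr_mem_disjSum, mem_filter] at hj
      exact hD j hj.1) hsum
  refine ⟨f, hf1, ?_, ?_, ?_⟩
  · intro v hv hc
    exact hf2 (Sum.inl v) (by simp only [J, inl_mem_disjSum, mem_filter]; exact ⟨hv, hc⟩)
  · intro v hv hc
    exact hf2 (Sum.inr (Sum.inl v))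
      (by simp only [J, inr_mem_disjSum, inl_mem_disjSum, mem_filter]; exact ⟨hv, hc⟩)
  · intro j hj hc
    exact hf2 (Sum.inr (Sum.inr j))
      (by simp only [J, inr_mem_disjSum, mem_filter]; exact ⟨hj, hc⟩)

end Pool.Agent.H12AE
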